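import Mathlib

namespace Pool.Agent.Results.MP_968b24_an.Q1

open Filter Topology Finset

/-- The iterated differences of `l`. -/
def Dif (l : ℕ → ℝ) : ℕ → ℕ → ℝ
  | 0, n => l n
  | k + 1, n => Dif l k n - Dif l k (n + 1)

/-- `l` is admissible for `s`, the weighted means tending to `L`. -/
def Adm (s l : ℕ → ℝ) (L : ℝ) : Prop :=
  (∀ n, 0 < l n) ∧ Tendsto (fun N => ∑ n ∈ range N, l n) atTop atTop ∧
    Tendsto (fun N => (∑ n ∈ range (N + 1), l n * s n) / ∑ n ∈ range (N + 1), l n) atTop (𝓝 L)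

/-- `l` is fully monotonic. -/
def Full (l : ℕ → ℝ) : Prop := ∀ k ≥ 1, ∀ n, 0 ≤ Dif l k n

/-- Abel mean. -/
noncomputable def A (s : ℕ → ℝ) (e : ℝ) : ℝ := ∑' n, e * (1 - e) ^ n * s n

lemma geo {e : ℝ} (h0 : 0 < e) (h1 : e < 1) (N : ℕ) :
    HasSum (fun n => e * (1 - e) ^ (n + N)) ((1 - e) ^ N) := by
  have := (hasSum_geometric_of_lt_one (r := 1 - e) (by linarith) (by linarith)).mul_left (e * (1 - e) ^ N)
  rw [show e * (1 - e) ^ N * (1 - (1 - e))⁻¹ = (1 - e) ^ N by rw [sub_sub_cancel]; field_simp] at this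
  simpa only [pow_add, mul_comm, mul_left_comm, mul_assoc] using this

lemma fin (e : ℝ) (N : ℕ) : ∑ n ∈ range N, e * (1 - e) ^ n = 1 - (1 - e) ^ N := by
  induction N with
  | zero => simp
  | succ N ih => rw [sum_range_succ, ih]; ring

lemma one {s : ℕ → ℝ} {C e L : ℝ} (hs : ∀ n, |s n - L| ≤ C) (h0 : 0 < e) (h1 : e < 1) (N : ℕ) :
    |A s e - L| ≤ C ∧ |∑ n ∈ range N, e * (1 - e) ^ n * (s n - L)| ≤
      |A s e - L| * (1 - (1 - e) ^ N) + 4 * C * ((1 - e) ^ N * (1 - (1 - e) ^ N)) := by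
  have p (n) : 0 ≤ e * (1 - e) ^ n := mul_nonneg h0.le (pow_nonneg (by linarith) _)
  have b (n) : ‖e * (1 - e) ^ n * (s n - L)‖ ≤ e * (1 - e) ^ n * C := by
    rw [Real.norm_eq_abs, abs_mul, abs_of_nonneg (p n)]; exact mul_le_mul_of_nonneg_left (hs n) (p n)
  have g := geo h0 h1 0
  simp only [add_zero, pow_zero] at g
  have sm : Summable fun n => e * (1 - e) ^ n * (s n - L) := .of_norm_bounded (g.mul_right C).summable b
  have a : A s e - L = ∑' n, e * (1 - e) ^ n * (s n - L) := by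
    have := (sm.hasSum.add (g.mul_right L)).tsum_eq
    simp only [← mul_add, sub_add_cancel] at this
    rw [A, this]; ring
  have t (N) : |∑' n, e * (1 - e) ^ (n + N) * (s (n + N) - L)| ≤ (1 - e) ^ N * C :=
    tsum_of_norm_bounded ((geo h0 h1 N).mul_right C) fun n => b _
  have a1 : |A s e - L| ≤ C := by simpa [a] using t 0
  refine ⟨a1, ?_⟩
  have u : |∑ n ∈ range N, e * (1 - e) ^ n * (s n - L)| ≤ (1 - (1 - e) ^ N) * C := by
    rw [← fin, sum_mul]; exact (abs_sum_le_sum_abs _ _).trans (sum_le_sum fun n _ => b n)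
  have v := sm.sum_add_tsum_nat_add N
  rw [← a] at v
  have w := t N
  have x0 : 0 ≤ (1 - e) ^ N := pow_nonneg (by linarith) _
  have x1 : (1 - e) ^ N ≤ 1 := pow_le_one₀ (by linarith) (by linarith)
  generalize (1 - e) ^ N = x at *
  generalize ∑ n ∈ range N, e * (1 - e) ^ n * (s n - L) = U at *
  generalize ∑' n, e * (1 - e) ^ (n + N) * (s (n + N) - L) = T at *
  clear a
  generalize A s e - L = a at *
  have C0 : 0 ≤ C := (abs_nonneg _).trans a1
  have : |U| ≤ |a| + x * C := by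
    rw [show U = a - T by linarith]; exact (abs_sub _ _).trans (by linarith)
  have a0 := abs_nonneg a
  nlinarith [mul_le_mul_of_nonneg_left this (sub_nonneg.2 x1), mul_le_mul_of_nonneg_left u x0,
    mul_nonneg C0 (mul_nonneg x0 (sub_nonneg.2 x1))]

lemma main {s e : ℕ → ℝ} {C L : ℝ} (hs : ∀ n, |s n - L| ≤ C) (h0 : ∀ k, 0 < e k) (h1 : ∀ k, e k < 1)
    (h2 : ∀ k, e (k + 1) ≤ e k / 2) (hL : Tendsto (fun k => A s (e k)) atTop (𝓝 L)) :
    ∃ l, Adm s l L ∧ Full l := by
  have C0 : 0 ≤ C := (abs_nonneg _).trans (hs 0)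
  have se : Summable e := summable_of_ratio_norm_eventually_le (r := 1 / 2) (by norm_num)
    (.of_forall fun k => by rw [Real.norm_of_nonneg (h0 _).le, Real.norm_of_nonneg (h0 _).le]; linarith [h2 k])
  have x0 (k n) : 0 < (1 - e k) ^ n := pow_pos (by linarith [h1 k]) _
  have x1 (k n) : (1 - e k) ^ n ≤ 1 := pow_le_one₀ (by linarith [h1 k]) (by linarith [h0 k])
  have sm (m n) : Summable fun k => e k * e k ^ m * (1 - e k) ^ n :=
    .of_nonneg_of_le (fun k => by have := h0 k; have := x0 k n; positivity) (fun k => by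
      rw [mul_assoc]
      exact mul_le_of_le_one_right (h0 k).le
        (mul_le_one₀ (pow_le_one₀ (h0 k).le (h1 k).le) (x0 k n).le (x1 k n))) se
  have sm0 (n) : Summable fun k => e k * (1 - e k) ^ n := by simpa using sm 0 n
  set l : ℕ → ℝ := fun n => ∑' k, e k * (1 - e k) ^ n with hl
  have hW (N) : HasSum (fun k => 1 - (1 - e k) ^ N) (∑ n ∈ range N, l n) := by
    simpa only [fin] using hasSum_sum fun n (_ : n ∈ range N) => (sm0 n).hasSum
  have W : Tendsto (fun N => ∑ n ∈ range N, l n) atTop atTop := by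
    refine tendsto_atTop.2 fun b => ?_
    obtain ⟨K, hK⟩ := exists_nat_gt b
    have : Tendsto (fun N => ∑ k ∈ range K, (1 - (1 - e k) ^ N)) atTop (𝓝 (∑ k ∈ range K, (1 - 0))) :=
      tendsto_finset_sum _ fun k _ => (tendsto_pow_atTop_nhds_zero_of_lt_one (by linarith [h1 k])
        (by linarith [h0 k])).const_sub 1
    filter_upwards [this.eventually_const_le (by simpa using hK)] with N hN
    exact hN.trans (sum_le_hasSum _ (fun k _ => sub_nonneg.2 (x1 k N)) (hW N))
  have lp (n) : 0 < l n := (sm0 n).tsum_pos (fun k => (mul_pos (h0 k) (x0 k n)).le) 0 (mul_pos (h0 0) (x0 0 n))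
  refine ⟨l, ⟨lp, W, ?_⟩, fun m _ n => ?_⟩
  swap
  · have : ∀ n, Dif l m n = ∑' k, e k * e k ^ m * (1 - e k) ^ n := by
      clear * - sm hl
      induction m with
      | zero => intro n; simp [Dif, hl]
      | succ m ih =>
        intro n
        rw [Dif, ih, ih, ← (sm m n).tsum_sub (sm m (n + 1))]
        congr 1; funext k; ring
    rw [this]
    exact tsum_nonneg fun k => by have := h0 k; have := x0 k n; positivity
  have tel (N K) : ∑ k ∈ range K, (1 - e k) ^ N * (1 - (1 - e k) ^ N) ≤ 2 * (1 - e K) ^ N := by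
    induction K with
    | zero => simpa using (x0 0 N).le
    | succ K ih =>
      have : (1 - e K) ^ N ≤ ((1 - e (K + 1)) ^ N) ^ 2 := by
        rw [← pow_mul, mul_comm, pow_mul]
        exact pow_le_pow_left₀ (by linarith [h1 K]) (by nlinarith [h2 K, sq_nonneg (e (K + 1))]) _
      rw [sum_range_succ]
      have a := x0 K N; have b := x1 K N; have c := x0 (K + 1) N; have d := x1 (K + 1) N
      generalize (1 - e K) ^ N = x at *
      generalize (1 - e (K + 1)) ^ N = y at *
      nlinarith [mul_nonneg (sub_nonneg.2 this) (show 0 ≤ 3 - x - y ^ 2 by nlinarith),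
        mul_nonneg c.le (mul_nonneg (sq_nonneg (y - 1)) (show 0 ≤ y + 2 by linarith))]
  have bd (η : ℝ) (η0 : 0 < η) : ∃ M, ∀ N, |∑ n ∈ range N, l n * (s n - L)| ≤ M + η * ∑ n ∈ range N, l n := by
    obtain ⟨K, hK⟩ := Metric.tendsto_atTop.1 hL η η0
    refine ⟨K * C + 4 * C * 2, fun N => ?_⟩
    have hN : HasSum (fun k => ∑ n ∈ range N, e k * (1 - e k) ^ n * (s n - L))
        (∑ n ∈ range N, l n * (s n - L)) := hasSum_sum fun n _ => (sm0 n).hasSum.mul_right _
    refine le_of_tendsto hN.tendsto_sum_nat.abs ((eventually_ge_atTop K).mono fun J hJ => ?_)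
    have i1 : ∑ k ∈ range J, (if k < K then C else 0) = K * C := by
      rw [← sum_filter, show (range J).filter (· < K) = range K by ext; simp; omega]; simp
    have i2 := (tel N J).trans (mul_le_mul_of_nonneg_left (x1 J N) zero_le_two)
    have i3 := sum_le_hasSum (range J) (fun k _ => sub_nonneg.2 (x1 k N)) (hW N)
    calc _ ≤ ∑ k ∈ range J, ((if k < K then C else 0) + η * (1 - (1 - e k) ^ N) +
          4 * C * ((1 - e k) ^ N * (1 - (1 - e k) ^ N))) := by
          refine (abs_sum_le_sum_abs _ _).trans (sum_le_sum fun k _ => ?_)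
          obtain ⟨p, q⟩ := one hs (h0 k) (h1 k) N
          have := x0 k N; have := sub_nonneg.2 (x1 k N)
          refine q.trans (add_le_add_left ?_ _)
          split_ifs with h
          · nlinarith [abs_nonneg (A s (e k) - L)]
          · have := (hK k (by omega)).le
            rw [Real.dist_eq] at this
            rw [zero_add]; gcongr
      _ ≤ _ := by
          rw [sum_add_distrib, sum_add_distrib, i1, ← mul_sum, ← mul_sum]
          nlinarith
  rw [Metric.tendsto_atTop]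
  intro η η0
  obtain ⟨M, hM⟩ := bd (η / 2) (by positivity)
  obtain ⟨N, hN⟩ := eventually_atTop.1 ((W.comp (tendsto_add_atTop_nat 1)).eventually_gt_atTop (M / (η / 2)))
  refine ⟨N, fun n hn => ?_⟩
  have w : 0 < ∑ j ∈ range (n + 1), l j := sum_pos (fun j _ => lp j) (by simp)
  have a := hM (n + 1)
  have b := (div_lt_iff₀ (by positivity)).1 (hN n hn)
  rw [Real.dist_eq, div_sub' w.ne', abs_div, abs_of_pos w, div_lt_iff₀ w, sum_mul, ← sum_sub_distrib]
  simp only [← mul_sub, Function.comp] at *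
  linarith

theorem result (s : ℕ → ℝ) (hs : ∃ C, ∀ n, |s n| ≤ C) :
    ∃ l L, Adm s l L ∧ Full l ∧ Antitone l := by
  obtain ⟨C, hC⟩ := hs
  have p (j : ℕ) : (0 : ℝ) < (1 / 2) ^ (j + 1) ∧ (1 / 2 : ℝ) ^ (j + 1) < 1 :=
    ⟨by positivity, pow_lt_one₀ (by norm_num) (by norm_num) (by omega)⟩
  have b (j : ℕ) : A s ((1 / 2) ^ (j + 1)) ∈ Set.Icc (-C) C := by
    simpa [abs_le] using (one (L := 0) (by simpa using hC) (p j).1 (p j).2 0).1
  obtain ⟨L, -, φ, hφ, hL⟩ := isCompact_Icc.tendsto_subseq b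
  obtain ⟨l, a, f⟩ := main (e := fun k => (1 / 2) ^ (φ k + 1)) (C := C + |L|)
    (fun n => (abs_sub _ _).trans (by linarith [hC n])) (fun k => (p _).1) (fun k => (p _).2) (fun k => by
      have := pow_le_pow_of_le_one (a := (1 / 2 : ℝ)) (by norm_num) (by norm_num)
        (show φ k + 1 + 1 ≤ φ (k + 1) + 1 from Nat.succ_le_succ (hφ (Nat.lt_succ_self k)))
      rw [pow_succ _ (φ k + 1)] at this
      linarith) hL
  exact ⟨l, L, a, f, antitone_nat_of_succ_le fun n => by simpa [Dif] using f 1 le_rfl n⟩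

end Pool.Agent.Results.MP_968b24_an.Q1
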